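import Mathlib
import Pool.Agent.H23.HSC2

set_option autoImplicit false

namespace Pool.Agent.Results.MP_51e3d2_lc.Decidable

open Pool.Agent.H23.HSC

/-- The consequence relation defined by the Heyting algebra `A`. -/
def Cons (A : Type) [HeytingAlgebra A] (Γ : Set Fm) (φ : Fm) : Prop :=
  ∀ v : ℕ → A, (∀ γ ∈ Γ, ev v γ = ⊤) → ev v φ = ⊤

theorem compact {A : Type} [HeytingAlgebra A] [Finite A] {Γ : Set Fm} {φ : Fm} (h : Cons A Γ φ) :
    ∃ Δ ⊆ Γ, Δ.Finite ∧ Cons A Δ φ := by
  let _ : TopologicalSpace A := ⊥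
  have : DiscreteTopology A := ⟨rfl⟩
  have c : ∀ φ, Continuous fun v : ℕ → A => ev v φ := fun φ => by
    induction φ with
    | var n => exact continuous_apply n
    | bot => exact continuous_const
    | top => exact continuous_const
    | and a b i j =>
      exact (continuous_of_discreteTopology (f := fun p : A × A => p.1 ⊓ p.2)).comp (i.prodMk j)
    | or a b i j =>
      exact (continuous_of_discreteTopology (f := fun p : A × A => p.1 ⊔ p.2)).comp (i.prodMk j)
    | imp a b i j =>
      exact (continuous_of_discreteTopology (f := fun p : A × A => p.1 ⇨ p.2)).comp (i.prodMk j)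
  obtain ⟨t, ht⟩ := ((isClosed_discrete {⊤}ᶜ).preimage (c φ)).isCompact.elim_finite_subfamily_closed
    (fun γ : Γ => (ev · γ.1) ⁻¹' {⊤}) (fun γ => (isClosed_discrete _).preimage (c _))
    (Set.eq_empty_of_forall_notMem fun v ⟨i, j⟩ => i (h v (by simpa using j)))
  refine ⟨(↑) '' (t : Set Γ), by simp, t.finite_toSet.image _, fun v k => by_contra fun n => ?_⟩
  exact (ht ▸ ⟨n, by simpa using k⟩ : v ∈ (∅ : Set (ℕ → A)))

theorem result : ∃ f : Code → Bool, Computable f ∧
    ∀ (A : Type) [HeytingAlgebra A] (n : ℕ) (e : A ≃ Fin n),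
      f (code e) = true ↔ IsHSC (Cons A) := by
  refine ⟨fun t => crit t t.1.length t.1.length ((List.range (t.1.length ^ t.1.length)).filter
    fun a => al t.1.length fun i => dig t.1.length a i == i),
    (crit_pr (by fun_prop) (by fun_prop) (by fun_prop) (by fun_prop)).to_comp, fun A _ n e => ?_⟩
  have := Finite.of_equiv _ e.symm
  have l : (code e).1.length = n := by simp [code, tab]
  let w : ℕ → A := fun i => if h : i < n then e.symm ⟨i, h⟩ else ⊥
  have hW : vl n e '' {a | a ∈ (List.range (n ^ n)).filter fun a => al n fun i => dig n a i == i} =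
      {w} := by
    obtain ⟨a, a1, a2⟩ := exists_dig n n id fun _ h => h
    have : ∀ a, (∀ i < n, dig n a i = i) → vl n e a = w := fun a h => funext fun i => by
      unfold vl w
      split_ifs with g <;> simp [h, g]
    exact Set.eq_singleton_iff_unique_mem.2 ⟨⟨a, by simpa using ⟨a1, a2⟩, this a a2⟩, by
      rintro _ ⟨b, i, rfl⟩; exact this b (by simp_all)⟩
  have b : ∀ Γ φ, B {w} Γ φ ↔ Cons A Γ φ := fun Γ φ => by
    simp only [B, Z, Set.mem_singleton_iff, forall_eq, ev_subst]
    refine ⟨fun h v => ?_, fun h s => h _⟩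
    simpa [ev, w] using h fun i => .var (e (v i))
  simp only [l]
  rw [crit_code (by simp +contextual), hW, ← crit_iff (by simp) (by simp [Nat.card_congr e])]
  simp only [b]
  refine ⟨fun h R d g => h R d fun Γ φ _ => g Γ φ, fun h R d g => h R d fun Γ φ k => ?_⟩
  obtain ⟨Δ, d1, d2, d3⟩ := compact k
  exact d.cut _ _ _ (fun δ i => d.refl _ _ (d1 i)) (g _ _ d2 d3)

end Pool.Agent.Results.MP_51e3d2_lc.Decidable
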